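import Pool.Agent.H62.Prophet2

set_option autoImplicit false
open MeasureTheory Pool.Agent.H62.Prophet

namespace Pool.Agent.Results.MP_8487d8_lc.Three

theorem result (c : ℝ) (hc : c < 3) :
    ∃ (V ι : Type) (_ : Fintype V) (_ : Fintype ι) (ed : ι → Sym2 V) (L : List ι) (v q : ι → ℝ),
      ed.Injective ∧ (∀ e, ¬(ed e).IsDiag) ∧ L.Nodup ∧ (∀ e, e ∈ L) ∧
      (∀ e, 0 ≤ v e ∧ 0 ≤ q e ∧ q e ≤ 1) ∧ 0 < Ex v q (opt ed) ∧
      ∀ (Ω : Type) [MeasurableSpace Ω] (ν : Measure Ω) [IsProbabilityMeasure ν] (T : Ω → ι → WithTop ℝ),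
        c * ∫ s, Ex v q (alg ed (T s) L) ∂ν ≤ Ex v q (opt ed) := by
  obtain ⟨k, hk⟩ := exists_nat_gt (max 2 (17 / (3 - c)))
  have k2 : (2 : ℝ) < k := (le_max_left _ _).trans_lt hk
  have k3 : 17 < k * (3 - c) := (div_lt_iff₀ (by linarith)).mp ((le_max_right _ _).trans_lt hk)
  have k0 : (0 : ℝ) < k := by linarith
  let m := (k ^ 2) ^ 3 * ((1 + k) * (k ^ 2) ^ 3 * k ^ 6)
  have m0 : (0 : ℝ) < m := by simp only [m]; push_cast; positivity
  have p1 : 1 / (k : ℝ) ^ 3 < 1 := (div_lt_one (by positivity)).mpr (one_lt_pow₀ (by linarith) (by simp))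
  have ho := opt_ge (m := m) (r := k ^ 2) (b := k ^ 3 / m) (K := k) (p := 1 / k ^ 3) (by positivity) (by linarith)
    (by positivity) p1
  have ha := alg_le (m := m) (r := k ^ 2) (b := k ^ 3 / m) (K := k) (p := 1 / k ^ 3)
    (t := (1 + k) * (k ^ 2) ^ 3 * k ^ 6) (by positivity) (by linarith) (by positivity) p1 (by field_simp) le_rfl
    (le_of_eq (by push_cast; field_simp))
  have h1 : 3 * (k : ℝ) ^ 2 - 2 * k ≤ m * (k ^ 3 / m) * (1 - 1 / (1 + (k ^ 2 : ℕ) * (1 / k ^ 3))) +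
      (k ^ 2 : ℕ) * (2 - 1 / k) := by
    have : (m : ℝ) * (k ^ 3 / m) * (1 - 1 / (1 + (k ^ 2 : ℕ) * (1 / k ^ 3))) + (k ^ 2 : ℕ) * (2 - 1 / k) =
      3 * k ^ 2 - 2 * k + k / (k + 1) := by push_cast; field_simp; ring
    rw [this]
    exact le_add_of_nonneg_right (by positivity)
  have hv : ∀ e : Ed m (k ^ 2), 0 ≤ vv (k ^ 3 / m) k e ∧ 0 ≤ vv (1 / k ^ 3) (1 / k) e ∧
      vv (1 / k ^ 3) (1 / k) e ≤ 1 := by
    rintro (_ | _ | _)
    · exact ⟨show 0 ≤ (k : ℝ) ^ 3 / m by positivity, show 0 ≤ 1 / (k : ℝ) ^ 3 by positivity, p1.le⟩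
    · exact ⟨zero_le_one, zero_le_one, le_rfl⟩
    · exact ⟨k0.le, show 0 ≤ 1 / (k : ℝ) by positivity, (div_le_one k0).mpr (by linarith)⟩
  refine ⟨Vx m (k ^ 2), Ed m (k ^ 2), inferInstance, inferInstance, ed, _, _, _, ed_inj, ed_nd, L_nodup, L_mem,
    hv, by nlinarith, fun Ω _ ν _ T => ?_⟩
  have h0 : ∀ s, 0 ≤ Ex (vv (k ^ 3 / m) k) (vv (1 / k ^ 3) (1 / k)) (alg ed (T s) (LA ++ (LB ++ LC))) := fun s =>
    Finset.sum_nonneg fun ω _ => mul_nonneg (Finset.prod_nonneg fun e _ => by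
      split_ifs; exacts [(hv e).2.1, sub_nonneg.mpr (hv e).2.2]) (Finset.sum_nonneg fun e _ => by
        split_ifs; exacts [(hv e).1, le_rfl])
  have h2 := integral_mono_of_nonneg (μ := ν) (.of_forall h0) (integrable_const _) (.of_forall fun s => ha (T s))
  have h3 := integral_nonneg_of_ae (μ := ν) (.of_forall h0)
  simp only [integral_const, probReal_univ, one_smul] at h2
  push_cast at h2
  rcases le_total c 0 with h | h
  · nlinarith
  · nlinarith [mul_le_mul_of_nonneg_left h2 h]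

end Pool.Agent.Results.MP_8487d8_lc.Three
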